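import Pool.Agent.V11172.PT.Reg4

set_option autoImplicit false

/-!
# Parity patterns of regular partitions: counting (MP_a23355_nt)

Let `m ≥ 2` and let `b_m(n)` be the number of `m`-regular partitions of `n`. For every `L` and every
pattern `c ≠ 0` the values `∑_{i ≤ L} c(i) b_m(n + i)` modulo 2 satisfy, for all large `x`:
* at least `x ^ (1/2 - ε)` of the `n ≤ x` have an odd value (every `ε > 0`);
* at least `√x / 48` of the `n ≤ x` have an even value.

Method. Let `H` be the series of the pattern and `g_j = j (3 j - 1) / 2`. Then `H f_1 = Q f_m` modulo 2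
with a polynomial `Q` of degree at most `L`, and the right side is supported on the clusters
`m g_k + {0, …, L}`. Even values: if `n` and `n + L` lie between two consecutive numbers `g_j` and no
cluster meets `[n, n + L]`, then the sum of the `∑ j` values at `n - g_j` is even; for a set of `n` of
density 1/2 the number of the `j` is odd, so one of the values is even. Odd values: take `L + 2` indices
`w_s` with an odd value (they exist, since every pattern has infinitely many odd values). For large `j`
the clusters are far apart and each has `L + 1` elements, so `w_s + g_j` is outside of the clusters for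
some `s`; there the number of odd values `w_s + g_j - g_j'` is even, so there is an odd value at
`w_s + g_j - g_j'` for some `j' ≠ j`. An integer `v ≠ w_s` has at most `2 d(2 |v - w_s|)`
representations `v - w_s = g_j - g_j'`, so by the divisor bound there are many such `v`.
-/

namespace Pool.Agent.Results.MP_a23355_nt.RegularPatterns

/-- the number of partitions of `n` with no part divisible by `m` -/
def b (m n : ℕ) : ℕ :=
  ((Finset.univ : Finset (Nat.Partition n)).filter fun p => ∀ i ∈ p.parts, ¬ m ∣ i).card

/-- the value modulo 2 of the pattern `c` at `n` -/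
def pat (m L : ℕ) (c : Fin (L + 1) → ZMod 2) (n : ℕ) : ZMod 2 :=
  ∑ i : Fin (L + 1), c i * (b m (n + i) : ZMod 2)

theorem result (m : ℕ) (hm : 2 ≤ m) (L : ℕ) (c : Fin (L + 1) → ZMod 2) (hc : c ≠ 0) :
    (∀ ε : ℝ, 0 < ε → ∃ x0 : ℕ, ∀ x : ℕ, x0 ≤ x →
      (x : ℝ) ^ (1 / 2 - ε) ≤ (((Finset.range (x + 1)).filter fun n => pat m L c n = 1).card : ℝ)) ∧
    ∃ x0 : ℕ, ∀ x : ℕ, x0 ≤ x →
      Real.sqrt x / 48 ≤ (((Finset.range (x + 1)).filter fun n => pat m L c n = 0).card : ℝ) := by
  set G : PowerSeries ℤ := PowerSeries.mk fun n => (b m n : ℤ) with hGdef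
  have hm0 : m ≠ 0 := by omega
  have hG : G * Pool.Agent.Y627.PT.eul 1 = Pool.Agent.Y627.PT.eul m := by
    rw [Pool.Agent.V11172.PT.eul_one, Pool.Agent.V11172.PT.eul_eq_expand hm0]
    exact Pool.Agent.V11172.PT.regular_gen ℤ hm0
  have h := Pool.Agent.V11172.PT.reg_main hm0 one_ne_zero (by omega : m ≠ 1) hG c hc
  have h2 : ∀ n, ∑ i : Fin (L + 1), c i * ((PowerSeries.coeff (n + i) G : ℤ) : ZMod 2) =
      pat m L c n := by
    intro n
    unfold pat
    refine Finset.sum_congr rfl fun i _ => ?_
    rw [hGdef, PowerSeries.coeff_mk, Int.cast_natCast]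
  simp only [h2] at h
  exact h

end Pool.Agent.Results.MP_a23355_nt.RegularPatterns
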